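import Pool.Agent.Helper903_S.E

/-!
# Boolean functions of sensitivity at most `2 log n` that are locally of degree `O(log n)`

The points of `{0, 1}^n` are written as subsets of `Fin n`, so that flipping the coordinate `i` of
`x` is `x ∆ {i}`, and the subcube through `x` in which the coordinates of `I` are fixed is the set
of the `y` with `y ∩ I = x ∩ I`. The proof: a test for `f` is a subcube with a function `φ` that
agrees with `f` on it; a family of tests which is minimal among those that determine `f` has at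
most `2 ^ (2 s + k)` members, since the parts of the subcubes on which the alternatives differ from
`f` are disjoint and large; the functions `φ` of degree at most `d` are counted through their
nonzero discrete derivatives.
-/

open scoped symmDiff

namespace Pool.Agent.Results.MP_4c73d6_lc.LocallyLowDegree

/-- The sensitivity of `f` at `x`: the number of coordinates `i` with `f (x ∆ {i}) ≠ f x`. -/
def sensitivityAt {n : ℕ} (f : Finset (Fin n) → Bool) (x : Finset (Fin n)) : ℕ :=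
  (Finset.univ.filter fun i : Fin n => f (x ∆ {i}) ≠ f x).card

/-- `φ` is a real polynomial of degree at most `d` in the coordinates of the point `x`: the
coefficient of the monomial of a set `S` is `c S`, and that monomial is `1` if `S ⊆ x` and `0`
otherwise. -/
def DegreeAtMost {n : ℕ} (φ : Finset (Fin n) → Bool) (d : ℝ) : Prop :=
  ∃ c : Finset (Fin n) → ℝ, (∀ S, d < (S.card : ℝ) → c S = 0) ∧
    ∀ x : Finset (Fin n), (if φ x = true then (1 : ℝ) else 0) = ∑ S ∈ x.powerset, c S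

/-- The functions of sensitivity at most `s` such that every point with value `true` lies in a
subcube of codimension at most `k` on which the function agrees with a Boolean function of degree
at most `d`. -/
def localClass (n : ℕ) (s k d : ℝ) : Set (Finset (Fin n) → Bool) :=
  {f | (∀ x, (sensitivityAt f x : ℝ) ≤ s) ∧
    ∀ x, f x = true → ∃ I : Finset (Fin n), (I.card : ℝ) ≤ k ∧
      ∃ φ : Finset (Fin n) → Bool, DegreeAtMost φ d ∧ ∀ y, y ∩ I = x ∩ I → f y = φ y}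

theorem nat_card_le (n s k d : ℕ) (S K D : ℝ) (hS : ∀ j : ℕ, (j : ℝ) ≤ S → j ≤ s)
    (hK : ∀ j : ℕ, (j : ℝ) ≤ K → j ≤ k) (hD : ∀ j : ℕ, (j : ℝ) ≤ D → j ≤ d) :
    Nat.card (localClass n S K D) ≤
      ((2 * n + 1) ^ k * (2 ^ n * ((n + 1) ^ d * (2 * 2 ^ d + 1) + 1) ^ 5 ^ d) + 1) ^
        2 ^ (2 * s + k) := by
  refine le_trans ?_ (Helper903_S.local_card_le n s k d)
  refine Nat.card_le_card_of_injective
    (fun f : localClass n S K D => ⟨f.1, fun x => hS _ (f.2.1 x), fun x hx => ?_⟩) ?_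
  · obtain ⟨I, hI, φ, ⟨c, hc0, hc⟩, hIf⟩ := f.2.2 x hx
    refine ⟨I, hK _ hI, φ, ⟨c, fun U hU => hc0 U ?_, hc⟩, hIf⟩
    by_contra h
    have := hD _ (not_lt.1 h)
    omega
  · intro f g hfg
    simp only [Subtype.mk.injEq] at hfg
    exact Subtype.ext hfg

/-- The numerical part, with `L = log n`. -/
theorem numeric (K n s k d : ℕ) (L : ℝ) (hs : (s : ℝ) ≤ 2 * L) (hk : (k : ℝ) ≤ K * L)
    (hd : (d : ℝ) ≤ K * L) (hn : 4 ≤ n) (hnL : (n : ℝ) = (2 : ℝ) ^ L) (hL1 : 1 ≤ L)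
    (hbig : (5 * K + 3) * L ^ 2 ≤ (n : ℝ)) :
    Real.logb 2 ((((2 * n + 1) ^ k * (2 ^ n * ((n + 1) ^ d * (2 * 2 ^ d + 1) + 1) ^ 5 ^ d) + 1) ^
        2 ^ (2 * s + k) : ℕ) : ℝ) ≤ (n : ℝ) ^ (4 * K + 6) := by
  set Q : ℕ := (n + 1) ^ d * (2 * 2 ^ d + 1) + 1 with hQ
  have h2 : (1 : ℝ) < 2 := by norm_num
  have h20 : (0 : ℝ) < 2 := by norm_num
  have hnR : (4 : ℝ) ≤ n := by exact_mod_cast hn
  have hn0 : (0 : ℝ) < n := by linarith
  have hn1 : (1 : ℝ) ≤ n := by linarith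
  have hlgn : Real.logb 2 n = L := by rw [hnL, Real.logb_rpow h20 (by norm_num)]
  have hQpos : (0 : ℝ) < Q := by rw [hQ]; positivity
  -- the logarithm of `Q`
  have hlogQ : Real.logb 2 Q ≤ (3 * d + 2) * L := by
    have h3 : (Q : ℝ) ≤ (n : ℝ) ^ (3 * d + 2) := by
      rw [hQ]; push_cast
      have e1 : ((n : ℝ) + 1) ^ d ≤ (n : ℝ) ^ (2 * d) := by
        rw [pow_mul]
        exact pow_le_pow_left₀ (by positivity) (by nlinarith) d
      have e2 : (2 : ℝ) ^ d ≤ (n : ℝ) ^ d := pow_le_pow_left₀ (by norm_num) (by linarith) d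
      have e3 : (1 : ℝ) ≤ (n : ℝ) ^ d := one_le_pow₀ hn1
      have e4 : (1 : ℝ) ≤ (n : ℝ) ^ (2 * d) := one_le_pow₀ hn1
      have e5 : ((n : ℝ) + 1) ^ d * (2 * 2 ^ d + 1) ≤ (n : ℝ) ^ (2 * d) * (n * (n : ℝ) ^ d) := by
        refine mul_le_mul e1 ?_ (by positivity) (by positivity)
        nlinarith
      have e6 : (1 : ℝ) ≤ (n : ℝ) ^ (2 * d) * (n * (n : ℝ) ^ d) := by
        have : (1 : ℝ) ≤ n * (n : ℝ) ^ d := by nlinarith
        nlinarith
      have e7 : (n : ℝ) ^ (3 * d + 2) = n * ((n : ℝ) ^ (2 * d) * (n * (n : ℝ) ^ d)) := by ring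
      rw [e7]
      nlinarith
    have h8 := Real.logb_le_logb_of_le h2 hQpos h3
    rw [Real.logb_pow, hlgn] at h8
    push_cast at h8
    exact h8
  have hlogQ0 : 0 ≤ Real.logb 2 Q := by
    apply Real.logb_nonneg h2
    rw [hQ]; push_cast
    have : (0 : ℝ) ≤ ((n : ℝ) + 1) ^ d * (2 * 2 ^ d + 1) := by positivity
    linarith
  have hlog2n : Real.logb 2 (2 * (n : ℝ) + 1) ≤ 2 * L := by
    have h3 : 2 * (n : ℝ) + 1 ≤ (n : ℝ) ^ 2 := by nlinarith
    have h8 := Real.logb_le_logb_of_le h2 (by positivity) h3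
    rw [Real.logb_pow, hlgn] at h8
    push_cast at h8
    exact h8
  have h5d : (5 : ℝ) ^ d ≤ (n : ℝ) ^ (3 * K) := by
    have e1 : (5 : ℝ) ^ d ≤ (2 : ℝ) ^ ((3 : ℝ) * d) := by
      have : (2 : ℝ) ^ ((3 : ℝ) * d) = 8 ^ d := by
        rw [Real.rpow_mul h20.le, Real.rpow_natCast]; norm_num
      rw [this]
      exact pow_le_pow_left₀ (by norm_num) (by norm_num) d
    refine le_trans e1 ?_
    have e2 : (n : ℝ) ^ (3 * K) = (2 : ℝ) ^ (L * (3 * K : ℕ)) := by
      rw [Real.rpow_mul h20.le, ← hnL, Real.rpow_natCast]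
    rw [e2]
    refine Real.rpow_le_rpow_of_exponent_le h2.le ?_
    push_cast; nlinarith
  have h2s : (2 : ℝ) ^ (2 * s + k) ≤ (n : ℝ) ^ (4 + K) := by
    have e1 : (2 : ℝ) ^ (2 * s + k) = (2 : ℝ) ^ ((2 * s + k : ℕ) : ℝ) := (Real.rpow_natCast _ _).symm
    have e2 : (n : ℝ) ^ (4 + K) = (2 : ℝ) ^ (L * (4 + K : ℕ)) := by
      rw [Real.rpow_mul h20.le, ← hnL, Real.rpow_natCast]
    rw [e1, e2]
    refine Real.rpow_le_rpow_of_exponent_le h2.le ?_
    push_cast; nlinarith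
  -- the logarithm of the base
  have hbase : Real.logb 2 (((2 * n + 1) ^ k * (2 ^ n * Q ^ 5 ^ d) + 1 : ℕ) : ℝ) ≤
      (n : ℝ) ^ (3 * K) * (n : ℝ) ^ 2 := by
    have e1 : (((2 * n + 1) ^ k * (2 ^ n * Q ^ 5 ^ d) + 1 : ℕ) : ℝ) ≤
        2 * ((2 * (n : ℝ) + 1) ^ k * (2 ^ n * (Q : ℝ) ^ 5 ^ d)) := by
      push_cast
      have : (1 : ℝ) ≤ (2 * (n : ℝ) + 1) ^ k * (2 ^ n * (Q : ℝ) ^ 5 ^ d) := by
        have hQ1 : 1 ≤ Q := by rw [hQ]; omega
        have : 1 ≤ (2 * n + 1) ^ k * (2 ^ n * Q ^ 5 ^ d) :=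
          Nat.succ_le_of_lt (by positivity)
        exact_mod_cast this
      linarith
    have e2 := Real.logb_le_logb_of_le h2 (by positivity) e1
    refine le_trans e2 ?_
    rw [Real.logb_mul (by norm_num) (by positivity), Real.logb_mul (by positivity) (by positivity),
      Real.logb_mul (by positivity) (by positivity), Real.logb_pow, Real.logb_pow, Real.logb_pow,
      Real.logb_self_eq_one h2]
    have e3 : (1 : ℝ) ≤ (n : ℝ) ^ (3 * K) := one_le_pow₀ hn1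
    have hk0 : (0 : ℝ) ≤ k := by positivity
    have hd0 : (0 : ℝ) ≤ d := by positivity
    have hK0 : (0 : ℝ) ≤ K := by positivity
    have e4 : (k : ℝ) * Real.logb 2 (2 * (n : ℝ) + 1) ≤ K * L * (2 * L) :=
      mul_le_mul hk hlog2n (Real.logb_nonneg h2 (by linarith)) (by positivity)
    have e5 : ((5 ^ d : ℕ) : ℝ) * Real.logb 2 Q ≤ (n : ℝ) ^ (3 * K) * ((3 * (K * L) + 2) * L) := by
      push_cast
      refine mul_le_mul h5d (le_trans hlogQ ?_) hlogQ0 (by positivity)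
      nlinarith
    have e6 : 1 + (K * L * (2 * L) + (n * 1 + (3 * (K * L) + 2) * L)) ≤ (n : ℝ) ^ 2 := by
      have : 1 + K * L * (2 * L) + (3 * (K * L) + 2) * L ≤ (5 * K + 3) * L ^ 2 := by nlinarith
      nlinarith
    have e7 : 0 ≤ K * L * (2 * L) := by positivity
    have e8 : (1 : ℝ) + (K * L * (2 * L) + (n * 1)) ≤
        (n : ℝ) ^ (3 * K) * (1 + (K * L * (2 * L) + (n * 1))) :=
      le_mul_of_one_le_left (by positivity) e3
    calc (1 : ℝ) + (k * Real.logb 2 (2 * (n : ℝ) + 1) +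
          (n * 1 + ((5 ^ d : ℕ) : ℝ) * Real.logb 2 Q))
        ≤ 1 + (K * L * (2 * L) + (n * 1 + (n : ℝ) ^ (3 * K) * ((3 * (K * L) + 2) * L))) := by
          linarith
      _ ≤ (n : ℝ) ^ (3 * K) * (1 + (K * L * (2 * L) + (n * 1 + (3 * (K * L) + 2) * L))) := by
          nlinarith
      _ ≤ (n : ℝ) ^ (3 * K) * (n : ℝ) ^ 2 := mul_le_mul_of_nonneg_left e6 (by positivity)
  have hfin : Real.logb 2 ((((2 * n + 1) ^ k * (2 ^ n * Q ^ 5 ^ d) + 1) ^
      2 ^ (2 * s + k) : ℕ) : ℝ) = (2 : ℝ) ^ (2 * s + k) *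
      Real.logb 2 (((2 * n + 1) ^ k * (2 ^ n * Q ^ 5 ^ d) + 1 : ℕ) : ℝ) := by
    rw [Nat.cast_pow, Real.logb_pow]
    push_cast
    rfl
  rw [hfin]
  have hb0 : 0 ≤ Real.logb 2 (((2 * n + 1) ^ k * (2 ^ n * Q ^ 5 ^ d) + 1 : ℕ) : ℝ) := by
    apply Real.logb_nonneg h2
    have : 1 ≤ (2 * n + 1) ^ k * (2 ^ n * Q ^ 5 ^ d) + 1 := by omega
    exact_mod_cast this
  calc (2 : ℝ) ^ (2 * s + k) * Real.logb 2 (((2 * n + 1) ^ k * (2 ^ n * Q ^ 5 ^ d) + 1 : ℕ) : ℝ)
      ≤ (n : ℝ) ^ (4 + K) * ((n : ℝ) ^ (3 * K) * (n : ℝ) ^ 2) :=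
        mul_le_mul h2s hbase hb0 (by positivity)
    _ = (n : ℝ) ^ (4 * K + 6) := by ring

/-- **Result.** For every `K` and all large `n`, the number of functions of sensitivity at most
`2 log₂ n` that are of degree at most `K log₂ n` on a subcube of codimension at most `K log₂ n`
around each point with value `true` is at most `2 ^ (n ^ (4 K + 6))`. -/
theorem result (K : ℕ) : ∀ᶠ n : ℕ in Filter.atTop,
    Real.logb 2 (Nat.card (localClass n (2 * Real.logb 2 n) (K * Real.logb 2 n)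
      (K * Real.logb 2 n))) ≤ (n : ℝ) ^ (4 * K + 6) := by
  have h20 : (0 : ℝ) < 2 := by norm_num
  have hlog2 : 0 < Real.log 2 := Real.log_pos (by norm_num)
  have hO := (Real.isLittleO_pow_log_id_atTop (n := 2)).bound
    (c := Real.log 2 ^ 2 / (5 * K + 3)) (by positivity)
  have hev := (tendsto_natCast_atTop_atTop (R := ℝ)).eventually hO
  filter_upwards [hev, Filter.eventually_ge_atTop 4] with n hn hn4
  have hnR : (4 : ℝ) ≤ n := by exact_mod_cast hn4
  have hnpos : (0 : ℝ) < n := by linarith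
  set L := Real.logb 2 (n : ℝ) with hL
  have hnL : (n : ℝ) = (2 : ℝ) ^ L := by
    rw [hL, Real.rpow_logb h20 (by norm_num) hnpos]
  have hL1 : 1 ≤ L := by
    rw [hL, Real.le_logb_iff_rpow_le (by norm_num) hnpos]
    norm_num; linarith
  have hbig : (5 * K + 3) * L ^ 2 ≤ (n : ℝ) := by
    rw [Real.norm_eq_abs, Real.norm_eq_abs, abs_of_nonneg (sq_nonneg _), id,
      abs_of_pos hnpos] at hn
    have h3 : L = Real.log n / Real.log 2 := rfl
    rw [h3, div_pow]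
    have h4 : (0 : ℝ) < 5 * K + 3 := by positivity
    have h5 : (0 : ℝ) < Real.log 2 ^ 2 := by positivity
    calc (5 * (K : ℝ) + 3) * (Real.log n ^ 2 / Real.log 2 ^ 2)
        ≤ (5 * (K : ℝ) + 3) * ((Real.log 2 ^ 2 / (5 * (K : ℝ) + 3) * (n : ℝ)) / Real.log 2 ^ 2) :=
          mul_le_mul_of_nonneg_left (div_le_div_of_nonneg_right hn h5.le) h4.le
      _ = (n : ℝ) := by field_simp
  have hK0 : (0 : ℝ) ≤ K * L := by positivity
  have h1 := nat_card_le n ⌊2 * L⌋₊ ⌊K * L⌋₊ ⌊K * L⌋₊ (2 * L) (K * L) (K * L)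
    (fun j hj => Nat.le_floor hj) (fun j hj => Nat.le_floor hj) (fun j hj => Nat.le_floor hj)
  have h2 := numeric K n ⌊2 * L⌋₊ ⌊K * L⌋₊ ⌊K * L⌋₊ L (Nat.floor_le (by linarith))
    (Nat.floor_le hK0) (Nat.floor_le hK0) hn4 hnL hL1 hbig
  refine le_trans ?_ h2
  rcases Nat.eq_zero_or_pos (Nat.card (localClass n (2 * L) (K * L) (K * L))) with h0 | hpos
  · rw [h0]
    simp only [Nat.cast_zero, Real.logb_zero]
    apply Real.logb_nonneg (by norm_num)
    have := Nat.one_le_pow (2 ^ (2 * ⌊2 * L⌋₊ + ⌊K * L⌋₊))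
      ((2 * n + 1) ^ ⌊K * L⌋₊ * (2 ^ n * ((n + 1) ^ ⌊K * L⌋₊ * (2 * 2 ^ ⌊K * L⌋₊ + 1) + 1) ^
        5 ^ ⌊K * L⌋₊) + 1) (by omega)
    exact_mod_cast this
  · apply Real.logb_le_logb_of_le (by norm_num) (by exact_mod_cast hpos)
    exact_mod_cast h1

end Pool.Agent.Results.MP_4c73d6_lc.LocallyLowDegree
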