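import Pool.Agent.Helper903_S.C

/-!
# Boolean functions of sensitivity at most `2 log n`: the exponent is at most `5 log log n`

The points of `{0, 1}^n` are written as subsets of `Fin n`, so that flipping the coordinate `i` of
`x` is `x ∆ {i}`. The proof: by Huang's theorem a function of sensitivity `s` has degree at most
`s ^ 2`; by Parseval the expected number of nonzero discrete derivatives of order `r` at a random
point is at most `4 ^ r binom(s ^ 2, r)`; and the derivatives of order at most `2 s` at one point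
determine the function.
-/

open scoped symmDiff

namespace Pool.Agent.Results.MP_4c73d6_lc.LogLogExponent

/-- The sensitivity of `f` at `x`: the number of coordinates `i` with `f (x ∆ {i}) ≠ f x`. -/
def sensitivityAt {n : ℕ} (f : Finset (Fin n) → Bool) (x : Finset (Fin n)) : ℕ :=
  (Finset.univ.filter fun i : Fin n => f (x ∆ {i}) ≠ f x).card

/-- The set `F(s, n)` of the Boolean functions on the cube with sensitivity at most `s`
at every point. -/
def lowSens (s : ℝ) (n : ℕ) : Set (Finset (Fin n) → Bool) :=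
  {f | ∀ x, (sensitivityAt f x : ℝ) ≤ s}

theorem nat_card_le (n s : ℕ) (S : ℝ) (hS : ∀ k : ℕ, (k : ℝ) ≤ S → k ≤ s) :
    Nat.card (lowSens S n) ≤ 2 ^ n * ((n + 1) ^ (2 * s) * (2 * 4 ^ s + 1) + 1) ^
        (∑ r ∈ Finset.range (2 * s + 1), 4 ^ r * (s ^ 2).choose r) := by
  refine le_trans ?_ (Helper903_S.card_le n s)
  refine Nat.card_le_card_of_injective
    (fun f : lowSens S n => (⟨f.1, fun x => hS _ (f.2 x)⟩ :
      {f : Finset (Fin n) → Bool // ∀ x, Helper903_S.sens f x ≤ s})) ?_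
  intro f g hfg
  simp only [Subtype.mk.injEq] at hfg
  exact Subtype.ext hfg

/-- The numerical part, with `L = log n` and `t = log log n`. -/
theorem numeric (n s : ℕ) (L t : ℝ) (hs : 1 ≤ s) (hsL : (s : ℝ) ≤ 2 * L) (hn1 : 1 ≤ n)
    (hnL : (n : ℝ) = (2 : ℝ) ^ L) (hLt : L = (2 : ℝ) ^ t) (ht : 22 ≤ t) :
    Real.logb 2 ((2 ^ n * ((n + 1) ^ (2 * s) * (2 * 4 ^ s + 1) + 1) ^
        (∑ r ∈ Finset.range (2 * s + 1), 4 ^ r * (s ^ 2).choose r) : ℕ) : ℝ) ≤
      (n : ℝ) ^ (5 * t) := by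
  set K : ℕ := ∑ r ∈ Finset.range (2 * s + 1), 4 ^ r * (s ^ 2).choose r with hK
  set Q : ℕ := (n + 1) ^ (2 * s) * (2 * 4 ^ s + 1) + 1 with hQ
  have h2 : (1 : ℝ) < 2 := by norm_num
  have h20 : (0 : ℝ) < 2 := by norm_num
  -- `L ≥ 1 + t`, more precisely `L ≥ 2 t`
  have hLt2 : 2 * t ≤ L := by
    have h1 := one_add_mul_self_le_rpow_one_add (s := (1 : ℝ)) (by norm_num) (p := t - 1)
      (by linarith)
    have h3 : (1 + 1 : ℝ) ^ (t - 1) = (2 : ℝ) ^ t / 2 := by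
      norm_num
      rw [Real.rpow_sub h20, Real.rpow_one]
    rw [h3, ← hLt] at h1
    linarith
  have hL1 : 1 ≤ L := by linarith
  have hL0 : 0 < L := by linarith
  -- the logarithm of `Q`
  have hQpos : (0 : ℝ) < Q := by rw [hQ]; positivity
  have hnR : (1 : ℝ) ≤ n := by exact_mod_cast hn1
  have hlogQ : Real.logb 2 Q ≤ 16 * L ^ 2 := by
    have h3 : (Q : ℝ) ≤ (2 * (n : ℝ)) ^ (2 * s) * 4 ^ (s + 1) := by
      rw [hQ]; push_cast
      have h4 : ((n : ℝ) + 1) ^ (2 * s) ≤ (2 * (n : ℝ)) ^ (2 * s) :=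
        pow_le_pow_left₀ (by positivity) (by linarith) _
      have h5 : (1 : ℝ) ≤ (2 * (n : ℝ)) ^ (2 * s) := one_le_pow₀ (by linarith)
      have h6 : (1 : ℝ) ≤ 4 ^ s := one_le_pow₀ (by norm_num)
      have h7 : (4 : ℝ) ^ (s + 1) = 4 * 4 ^ s := by rw [pow_succ]; ring
      rw [h7]
      calc ((n : ℝ) + 1) ^ (2 * s) * (2 * 4 ^ s + 1) + 1
          ≤ (2 * (n : ℝ)) ^ (2 * s) * (2 * 4 ^ s + 1) + (2 * (n : ℝ)) ^ (2 * s) := by
            have : ((n : ℝ) + 1) ^ (2 * s) * (2 * 4 ^ s + 1) ≤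
              (2 * (n : ℝ)) ^ (2 * s) * (2 * 4 ^ s + 1) :=
              mul_le_mul_of_nonneg_right h4 (by positivity)
            linarith
        _ = (2 * (n : ℝ)) ^ (2 * s) * (2 * 4 ^ s + 2) := by ring
        _ ≤ (2 * (n : ℝ)) ^ (2 * s) * (4 * 4 ^ s) :=
            mul_le_mul_of_nonneg_left (by linarith) (by positivity)
    have h8 := Real.logb_le_logb_of_le h2 hQpos h3
    refine le_trans h8 ?_
    rw [Real.logb_mul (by positivity) (by positivity), Real.logb_pow, Real.logb_pow,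
      Real.logb_mul (by norm_num) (by positivity), Real.logb_self_eq_one h2]
    have h9 : Real.logb 2 n = L := by rw [hnL, Real.logb_rpow h20 (by norm_num)]
    have h10 : Real.logb 2 (4 : ℝ) = 2 := by
      have : (4 : ℝ) = (2 : ℝ) ^ (2 : ℝ) := by norm_num
      rw [this, Real.logb_rpow h20 (by norm_num)]
    rw [h9, h10]
    push_cast
    have h11 : (0 : ℝ) ≤ s := by positivity
    nlinarith
  -- the exponent
  have hKle : (K : ℝ) ≤ (2 : ℝ) ^ (4 * L * (t + 5)) := by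
    have h3 : (K : ℝ) ≤ (12 * (s : ℝ)) ^ (2 * s) := by
      rw [hK]; exact_mod_cast Helper903_S.K_le s hs
    refine le_trans h3 ?_
    have hs1 : (1 : ℝ) ≤ s := by exact_mod_cast hs
    have h4 : (12 * (s : ℝ)) ^ (2 * s) = (12 * (s : ℝ)) ^ ((2 * s : ℕ) : ℝ) :=
      (Real.rpow_natCast _ _).symm
    rw [h4]
    have h5 : 12 * (s : ℝ) ≤ (2 : ℝ) ^ (t + 5) := by
      rw [Real.rpow_add h20, ← hLt]
      have : (2 : ℝ) ^ (5 : ℝ) = 32 := by norm_num
      rw [this]; linarith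
    calc (12 * (s : ℝ)) ^ ((2 * s : ℕ) : ℝ) ≤ (12 * (s : ℝ)) ^ (4 * L) := by
          refine Real.rpow_le_rpow_of_exponent_le (by linarith) ?_
          push_cast; linarith
      _ ≤ ((2 : ℝ) ^ (t + 5)) ^ (4 * L) :=
          Real.rpow_le_rpow (by positivity) h5 (by linarith)
      _ = (2 : ℝ) ^ (4 * L * (t + 5)) := by
          rw [← Real.rpow_mul h20.le]; congr 1; ring
  -- put together
  have hlog : Real.logb 2 ((2 ^ n * Q ^ K : ℕ) : ℝ) = n + K * Real.logb 2 Q := by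
    push_cast
    rw [Real.logb_mul (by positivity) (by positivity), Real.logb_pow, Real.logb_pow,
      Real.logb_self_eq_one h2, mul_one]
  rw [hlog]
  have h16 : 16 * L ^ 2 = (2 : ℝ) ^ (2 * t + 4) := by
    rw [Real.rpow_add h20]
    have e1 : (2 : ℝ) ^ (4 : ℝ) = 16 := by norm_num
    have e2 : (2 : ℝ) ^ (2 * t) = L ^ 2 := by
      rw [mul_comm, Real.rpow_mul h20.le, ← hLt]
      norm_num
    rw [e1, e2]; ring
  have hlogQ0 : 0 ≤ Real.logb 2 Q := by
    apply Real.logb_nonneg h2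
    rw [hQ]; push_cast
    have : (0 : ℝ) ≤ ((n : ℝ) + 1) ^ (2 * s) * (2 * 4 ^ s + 1) := by positivity
    linarith
  have h17 : K * Real.logb 2 Q ≤ (2 : ℝ) ^ (4 * L * (t + 5) + (2 * t + 4)) := by
    rw [Real.rpow_add h20, ← h16]
    exact mul_le_mul hKle hlogQ hlogQ0 (by positivity)
  have h18 : (n : ℝ) ≤ (2 : ℝ) ^ (4 * L * (t + 5) + (2 * t + 4)) := by
    rw [hnL]
    refine Real.rpow_le_rpow_of_exponent_le h2.le ?_
    nlinarith
  have h19 : (n : ℝ) ^ (5 * t) = (2 : ℝ) ^ (L * (5 * t)) := by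
    rw [hnL, ← Real.rpow_mul h20.le]
  rw [h19]
  have h21 : (2 : ℝ) ^ (4 * L * (t + 5) + (2 * t + 4)) * 2 =
      (2 : ℝ) ^ (4 * L * (t + 5) + (2 * t + 4) + 1) := by
    rw [Real.rpow_add h20 (4 * L * (t + 5) + (2 * t + 4)) 1, Real.rpow_one]
  have h22 : (2 : ℝ) ^ (4 * L * (t + 5) + (2 * t + 4) + 1) ≤ (2 : ℝ) ^ (L * (5 * t)) := by
    refine Real.rpow_le_rpow_of_exponent_le h2.le ?_
    nlinarith
  linarith

/-- **Result.** For all large `n`, `log₂ |F(2 log₂ n, n)| ≤ n ^ (5 log₂ log₂ n)`. -/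
theorem result : ∀ᶠ n : ℕ in Filter.atTop,
    Real.logb 2 (Nat.card (lowSens (2 * Real.logb 2 n) n)) ≤
      (n : ℝ) ^ (5 * Real.logb 2 (Real.logb 2 n)) := by
  have h20 : (0 : ℝ) < 2 := by norm_num
  have hev : ∀ᶠ n : ℕ in Filter.atTop, (2 : ℝ) ^ ((2 : ℝ) ^ (22 : ℝ)) ≤ (n : ℝ) :=
    tendsto_natCast_atTop_atTop.eventually_ge_atTop _
  filter_upwards [hev] with n hn
  have hnpos : (0 : ℝ) < n := lt_of_lt_of_le (by positivity) hn
  set L := Real.logb 2 (n : ℝ) with hL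
  have hL22 : (2 : ℝ) ^ (22 : ℝ) ≤ L := by
    rw [hL, Real.le_logb_iff_rpow_le (by norm_num) hnpos]
    exact hn
  have hLpos : 0 < L := lt_of_lt_of_le (by positivity) hL22
  set t := Real.logb 2 L with ht
  have ht22 : 22 ≤ t := by
    rw [ht, Real.le_logb_iff_rpow_le (by norm_num) hLpos]
    exact hL22
  have hnL : (n : ℝ) = (2 : ℝ) ^ L := by
    rw [hL, Real.rpow_logb h20 (by norm_num) hnpos]
  have hLt : L = (2 : ℝ) ^ t := by
    rw [ht, Real.rpow_logb h20 (by norm_num) hLpos]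
  have hL1 : 1 ≤ L := le_trans (by norm_num) hL22
  have hs1 : 1 ≤ ⌊2 * L⌋₊ := by
    apply Nat.le_floor; push_cast; linarith
  have hn1 : 1 ≤ n := by
    have : (0 : ℝ) < n := hnpos
    exact_mod_cast Nat.succ_le_of_lt (by exact_mod_cast this)
  have h1 := nat_card_le n ⌊2 * L⌋₊ (2 * L) fun k hk => Nat.le_floor hk
  have h2 := numeric n ⌊2 * L⌋₊ L t hs1 (Nat.floor_le (by linarith)) hn1 hnL hLt ht22
  refine le_trans ?_ h2
  rcases Nat.eq_zero_or_pos (Nat.card (lowSens (2 * L) n)) with h0 | hpos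
  · rw [h0]
    simp only [Nat.cast_zero, Real.logb_zero]
    apply Real.logb_nonneg (by norm_num)
    have : 1 ≤ 2 ^ n * ((n + 1) ^ (2 * ⌊2 * L⌋₊) * (2 * 4 ^ ⌊2 * L⌋₊ + 1) + 1) ^
        (∑ r ∈ Finset.range (2 * ⌊2 * L⌋₊ + 1), 4 ^ r * (⌊2 * L⌋₊ ^ 2).choose r) :=
      Nat.succ_le_of_lt (by positivity)
    exact_mod_cast this
  · apply Real.logb_le_logb_of_le (by norm_num) (by exact_mod_cast hpos)
    exact_mod_cast h1

end Pool.Agent.Results.MP_4c73d6_lc.LogLogExponent
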